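import Mathlib

set_option autoImplicit false

open Finset Polynomial

namespace Pool.Agent.QSum

/-- The indeterminate `q` of `ℚ(q)`. -/
noncomputable def q : RatFunc ℚ := RatFunc.X

/-- The `q`-shifted factorial `(a;b)_k = (1 - a) (1 - a b) ⋯ (1 - a b^(k-1))` in `ℚ(q)`. -/
noncomputable def qPoch (a b : RatFunc ℚ) (k : ℕ) : RatFunc ℚ := ∏ i ∈ range k, (1 - a * b ^ i)

/-- The term `t_k(q)`. -/
noncomputable def t (k : ℕ) : RatFunc ℚ :=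
  q ^ k * (((1 + q ^ (4 * k + 1)) * qPoch (q ^ 2) (q ^ 4) k ^ 3) /
    ((1 + q) * qPoch (q ^ 4) (q ^ 4) k ^ 3))

/-- The truncated sum `S_N(q)`. -/
noncomputable def S (N : ℕ) : RatFunc ℚ := ∑ k ∈ range (N + 1), t k

/-- The embedding of `ℤ[q]` into `ℚ(q)`. -/
noncomputable def emb : ℤ[X] →+* RatFunc ℚ :=
  (algebraMap ℚ[X] (RatFunc ℚ)).comp (mapRingHom (Int.castRingHom ℚ))

/-- `f ≡ 0 (mod Φ_n(q)^2)`: `f = P / Q` with `P, Q ∈ ℤ[q]` coprime, `Q` coprime to `Φ_n(q)` and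
`Φ_n(q)^2` dividing `P`. -/
def CongZero (n : ℕ) (f : RatFunc ℚ) : Prop :=
  ∃ P Q : ℤ[X], Q ≠ 0 ∧ IsRelPrime P Q ∧ f = emb P / emb Q ∧
    IsRelPrime Q (cyclotomic n ℤ) ∧ cyclotomic n ℤ ^ 2 ∣ P

end Pool.Agent.QSum
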