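import Mathlib

set_option autoImplicit false

open Finset

namespace Pool.Agent.QSum

/-- The `j`-th summand of the cleared block sum. -/
def ww {R : Type*} [CommRing R] (m : ℕ) (Y q : R) (j : ℕ) : R :=
  q ^ j * (1 + Y * q ^ (4 * j + 1)) * (∏ i ∈ range j, (1 - Y * q ^ (4 * i + 2)) ^ 3) *
    ∏ i ∈ Ico (j + 1) (m + 1), (1 - Y * q ^ (4 * i)) ^ 3

/-- The cleared block sum. -/
def WW {R : Type*} [CommRing R] (m : ℕ) (Y q : R) : R := ∑ j ∈ range (m + 1), ww m Y q j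

lemma map_WW {R S : Type*} [CommRing R] [CommRing S] (f : R →+* S) (m : ℕ) (Y q : R) :
    f (WW m Y q) = WW m (f Y) (f q) := by
  simp [WW, ww, map_sum, map_prod]

section reflection

variable {R : Type*} [CommRing R]

lemma fac1 {Y Y' q : R} {N a b : ℕ} (h : Y * Y' * q ^ N = 1) (hab : a + b = N) :
    (1 - Y * q ^ a) * (Y' * q ^ b) = -(1 - Y' * q ^ b) := by
  have e : q ^ N = q ^ a * q ^ b := by rw [← hab, pow_add]
  rw [e] at h
  linear_combination (-1 : R) * h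

lemma fac2 {Y Y' q : R} {N a b : ℕ} (h : Y * Y' * q ^ N = 1) (hab : a + b = N) :
    (1 + Y * q ^ a) * (Y' * q ^ b) = 1 + Y' * q ^ b := by
  have e : q ^ N = q ^ a * q ^ b := by rw [← hab, pow_add]
  rw [e] at h
  linear_combination h

/-- exponent bookkeeping -/
lemma prod_pow_range (q : R) (j : ℕ) :
    ∏ i ∈ range j, q ^ (4 * i + 2) = q ^ (2 * j ^ 2) := by
  induction j with
  | zero => simp
  | succ j ih =>
    rw [prod_range_succ, ih, ← pow_add]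
    congr 1
    ring

lemma prod_pow_Ico (q : R) (j m : ℕ) (hj : j ≤ m) :
    (∏ i ∈ Ico (j + 1) (m + 1), q ^ (4 * i)) * q ^ (2 * j * (j + 1)) = q ^ (2 * m * (m + 1)) := by
  induction m, hj using Nat.le_induction with
  | base => simp
  | succ m hm ih =>
    rw [prod_Ico_succ_top (by omega)]
    calc (∏ i ∈ Ico (j + 1) (m + 1), q ^ (4 * i)) * q ^ (4 * (m + 1)) * q ^ (2 * j * (j + 1))
        = ((∏ i ∈ Ico (j + 1) (m + 1), q ^ (4 * i)) * q ^ (2 * j * (j + 1))) *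
            q ^ (4 * (m + 1)) := by ring
      _ = q ^ (2 * (m + 1) * (m + 1 + 1)) := by
          rw [ih, ← pow_add]; congr 1; ring

lemma prod_reflect_first {Y Y' q : R} {m j : ℕ} (h : Y * Y' * q ^ (2 * (2 * m + 1)) = 1)
    (hj : j ≤ m) :
    (∏ i ∈ range (m - j), (1 - Y * q ^ (4 * i + 2))) *
      ∏ i ∈ Ico (j + 1) (m + 1), (Y' * q ^ (4 * i)) =
    (-1) ^ (m - j) * ∏ i ∈ Ico (j + 1) (m + 1), (1 - Y' * q ^ (4 * i)) := by
  have e1 : ∏ i ∈ range (m - j), (1 - Y * q ^ (4 * i + 2)) =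
      ∏ i ∈ Ico (j + 1) (m + 1), (1 - Y * q ^ (4 * (m - i) + 2)) := by
    rw [prod_Ico_eq_prod_range]
    rw [show m + 1 - (j + 1) = m - j by omega]
    rw [← prod_range_reflect]
    apply prod_congr rfl
    intro i hi
    rw [mem_range] at hi
    congr 3
    omega
  rw [e1, ← prod_mul_distrib]
  have e2 : ∏ i ∈ Ico (j + 1) (m + 1), ((1 - Y * q ^ (4 * (m - i) + 2)) * (Y' * q ^ (4 * i))) =
      ∏ i ∈ Ico (j + 1) (m + 1), (-1 : R) * (1 - Y' * q ^ (4 * i)) := by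
    apply prod_congr rfl
    intro i hi
    rw [mem_Ico] at hi
    rw [fac1 h (by omega)]
    ring
  rw [e2, prod_mul_distrib, prod_const, Nat.card_Ico]
  congr 2
  omega

lemma prod_reflect_second {Y Y' q : R} {m j : ℕ} (h : Y * Y' * q ^ (2 * (2 * m + 1)) = 1)
    (hj : j ≤ m) :
    (∏ i ∈ Ico (m - j + 1) (m + 1), (1 - Y * q ^ (4 * i))) *
      ∏ i ∈ range j, (Y' * q ^ (4 * i + 2)) =
    (-1) ^ j * ∏ i ∈ range j, (1 - Y' * q ^ (4 * i + 2)) := by
  have e1 : ∏ i ∈ Ico (m - j + 1) (m + 1), (1 - Y * q ^ (4 * i)) =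
      ∏ i ∈ range j, (1 - Y * q ^ (4 * (m - i))) := by
    rw [prod_Ico_eq_prod_range]
    rw [show m + 1 - (m - j + 1) = j by omega]
    rw [← prod_range_reflect]
    apply prod_congr rfl
    intro i hi
    rw [mem_range] at hi
    congr 3
    omega
  rw [e1, ← prod_mul_distrib]
  have e2 : ∏ i ∈ range j, ((1 - Y * q ^ (4 * (m - i))) * (Y' * q ^ (4 * i + 2))) =
      ∏ i ∈ range j, (-1 : R) * (1 - Y' * q ^ (4 * i + 2)) := by
    apply prod_congr rfl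
    intro i hi
    rw [mem_range] at hi
    rw [fac1 h (by omega)]
    ring
  rw [e2, prod_mul_distrib, prod_const, card_range]

/-- Termwise reflection. -/
lemma ww_reflect {Y Y' q : R} {m j : ℕ} (hm : Odd m)
    (h : Y * Y' * q ^ (2 * (2 * m + 1)) = 1) (hj : j ≤ m) :
    ww m Y q (m - j) * Y' ^ (3 * m + 1) * q ^ (1 + 6 * m * (m + 1)) = -(q ^ m * ww m Y' q j) := by
  have h1 := prod_reflect_first (j := j) h hj
  have h2 := prod_reflect_second (j := j) h hj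
  have h3 : (1 + Y * q ^ (4 * (m - j) + 1)) * (Y' * q ^ (4 * j + 1)) = 1 + Y' * q ^ (4 * j + 1) :=
    fac2 h (by omega)
  -- the collected powers
  have p1 : ∏ i ∈ Ico (j + 1) (m + 1), (Y' * q ^ (4 * i)) =
      Y' ^ (m - j) * ∏ i ∈ Ico (j + 1) (m + 1), q ^ (4 * i) := by
    rw [prod_mul_distrib, prod_const, Nat.card_Ico]
    congr 2
    omega
  have p2 : ∏ i ∈ range j, (Y' * q ^ (4 * i + 2)) = Y' ^ j * q ^ (2 * j ^ 2) := by
    rw [prod_mul_distrib, prod_const, card_range, prod_pow_range]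
  have p3 := prod_pow_Ico q j m hj
  have hsgn : ((-1 : R) ^ (m - j)) ^ 3 * ((-1 : R) ^ j) ^ 3 = -1 := by
    rw [← mul_pow, ← pow_add, Nat.sub_add_cancel hj, hm.neg_one_pow]
    ring
  -- abbreviations
  set A := ∏ i ∈ range (m - j), (1 - Y * q ^ (4 * i + 2)) with hA
  set B := ∏ i ∈ Ico (m - j + 1) (m + 1), (1 - Y * q ^ (4 * i)) with hB
  set A' := ∏ i ∈ Ico (j + 1) (m + 1), (1 - Y' * q ^ (4 * i)) with hA'
  set B' := ∏ i ∈ range j, (1 - Y' * q ^ (4 * i + 2)) with hB'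
  set P := ∏ i ∈ Ico (j + 1) (m + 1), q ^ (4 * i) with hP
  rw [p1] at h1
  rw [p2] at h2
  have hw1 : ww m Y q (m - j) = q ^ (m - j) * (1 + Y * q ^ (4 * (m - j) + 1)) * A ^ 3 * B ^ 3 := by
    simp only [ww, prod_pow, hA, hB]
  have hw2 : ww m Y' q j = q ^ j * (1 + Y' * q ^ (4 * j + 1)) * B' ^ 3 * A' ^ 3 := by
    simp only [ww, prod_pow, hA', hB']
  rw [hw1, hw2, ← h3]
  -- exponent identities
  have eY : Y' ^ (3 * m + 1) = Y' * (Y' ^ (m - j)) ^ 3 * (Y' ^ j) ^ 3 := by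
    rw [← pow_mul, ← pow_mul, ← pow_succ', ← pow_add]
    congr 1
    omega
  have eq1 : q ^ (1 + 6 * m * (m + 1)) =
      P ^ 3 * (q ^ (2 * j ^ 2)) ^ 3 * q ^ (4 * j + 1) * q ^ (2 * j) := by
    have : q ^ (1 + 6 * m * (m + 1)) = q * (P * q ^ (2 * j * (j + 1))) ^ 3 := by
      rw [p3, ← pow_mul, ← pow_succ']
      congr 1
      ring
    rw [this, mul_pow, ← pow_mul, ← pow_mul]
    have e5 : q ^ (2 * j * (j + 1) * 3) = q ^ (2 * j ^ 2 * 3) * q ^ (4 * j) * q ^ (2 * j) := by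
      rw [← pow_add, ← pow_add]; congr 1; ring
    rw [e5]
    ring
  have eq2 : q ^ (m - j) * q ^ (2 * j) = q ^ m * q ^ j := by
    rw [← pow_add, ← pow_add]; congr 1; omega
  calc q ^ (m - j) * (1 + Y * q ^ (4 * (m - j) + 1)) * A ^ 3 * B ^ 3 * Y' ^ (3 * m + 1) *
        q ^ (1 + 6 * m * (m + 1))
      = (q ^ (m - j) * q ^ (2 * j)) *
          ((1 + Y * q ^ (4 * (m - j) + 1)) * (Y' * q ^ (4 * j + 1))) *
          (A * (Y' ^ (m - j) * P)) ^ 3 * (B * (Y' ^ j * q ^ (2 * j ^ 2))) ^ 3 := by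
        rw [eY, eq1]; ring
    _ = (q ^ m * q ^ j) *
          ((1 + Y * q ^ (4 * (m - j) + 1)) * (Y' * q ^ (4 * j + 1))) *
          (((-1 : R) ^ (m - j)) ^ 3 * ((-1 : R) ^ j) ^ 3) * A' ^ 3 * B' ^ 3 := by
        rw [h1, h2, eq2]; ring
    _ = -(q ^ m * (q ^ j * ((1 + Y * q ^ (4 * (m - j) + 1)) * (Y' * q ^ (4 * j + 1))) *
          B' ^ 3 * A' ^ 3)) := by
        rw [hsgn]; ring

/-- Reflection of the block sum. -/
theorem WW_reflect {Y Y' q : R} {m : ℕ} (hm : Odd m)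
    (h : Y * Y' * q ^ (2 * (2 * m + 1)) = 1) :
    WW m Y q * (Y' ^ (3 * m + 1) * q ^ (1 + 6 * m * (m + 1))) = -(q ^ m * WW m Y' q) := by
  unfold WW
  rw [← sum_range_reflect, sum_mul, mul_sum, ← sum_neg_distrib]
  apply sum_congr rfl
  intro j hj
  rw [mem_range] at hj
  have := ww_reflect (j := j) hm h (by omega)
  rw [show m + 1 - 1 - j = m - j by omega, ← mul_assoc]
  exact this

end reflection

/-- The generating polynomial. -/
def MM {R : Type*} [CommRing R] (m : ℕ) (z Y : R) : R :=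
  (1 + z * Y) * ∏ i ∈ Ico 1 (m + 1), (1 - Y * z ^ (4 * i)) ^ 3

lemma map_MM {R S : Type*} [CommRing R] [CommRing S] (f : R →+* S) (m : ℕ) (z Y : R) :
    f (MM m z Y) = MM m (f z) (f Y) := by
  simp [MM, map_prod]

section MMrel

variable {R : Type*} [CommRing R]

lemma MM_shift (m j : ℕ) (z Y : R) :
    MM m z (Y * z ^ (4 * j)) =
      (1 + Y * z ^ (4 * j + 1)) * ∏ i ∈ Ico (j + 1) (j + m + 1), (1 - Y * z ^ (4 * i)) ^ 3 := by
  unfold MM
  congr 1
  · ring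
  · rw [prod_Ico_eq_prod_range, prod_Ico_eq_prod_range]
    rw [show j + m + 1 - (j + 1) = m + 1 - 1 by omega]
    apply prod_congr rfl
    intro i _
    congr 2
    rw [mul_assoc, ← pow_add]
    congr 2
    ring

lemma MM_small {m j : ℕ} (hj : j ≤ m) {z : R} (hz : z ^ (2 * m + 1) = 1) (Y : R) :
    z ^ j * MM m z (Y * z ^ (4 * j)) = ww m Y z j := by
  rw [MM_shift]
  unfold ww
  rw [← prod_Ico_consecutive _ (show j + 1 ≤ m + 1 by omega) (show m + 1 ≤ j + m + 1 by omega)]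
  have : ∏ i ∈ Ico (m + 1) (j + m + 1), (1 - Y * z ^ (4 * i)) ^ 3 =
      ∏ i ∈ range j, (1 - Y * z ^ (4 * i + 2)) ^ 3 := by
    rw [prod_Ico_eq_prod_range]
    rw [show j + m + 1 - (m + 1) = j by omega]
    apply prod_congr rfl
    intro i _
    congr 3
    rw [show 4 * (m + 1 + i) = (4 * i + 2) + (2 * m + 1) * 2 by ring, pow_add, pow_mul z (2 * m + 1),
      hz, one_pow, mul_one]
  rw [this]
  ring

lemma MM_large {m j : ℕ} (hj : m < j) (hj2 : j < 2 * m + 1) {z : R} (hz : z ^ (2 * m + 1) = 1)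
    (Y : R) : (1 - Y) ^ 3 ∣ MM m z (Y * z ^ (4 * j)) := by
  rw [MM_shift]
  apply Dvd.dvd.mul_left
  have hmem : 2 * m + 1 ∈ Ico (j + 1) (j + m + 1) := by
    rw [mem_Ico]; omega
  have h := dvd_prod_of_mem (fun i => (1 - Y * z ^ (4 * i)) ^ 3) hmem
  have e : (1 - Y * z ^ (4 * (2 * m + 1))) ^ 3 = (1 - Y) ^ 3 := by
    rw [mul_comm 4, pow_mul, hz, one_pow, mul_one]
  rw [e] at h
  exact h

end MMrel

end Pool.Agent.QSum
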