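import Mathlib
import Pool.Agent.MP_846daf_nt.Ring

set_option autoImplicit false
set_option linter.unusedSectionVars false

open Finset Polynomial

namespace Pool.Agent.QSum

section field

variable {K : Type*} [Field K] [CharZero K]

lemma WW_one_zeta {m : ℕ} (hm : Odd m) {z : K} (hz : IsPrimitiveRoot z (2 * m + 1)) :
    WW m 1 z = 0 := by
  have hz1 : z ^ (2 * m + 1) = 1 := hz.pow_eq_one
  have hz0 : z ≠ 0 := hz.ne_zero (by omega)
  have h := WW_reflect (Y := 1) (Y' := 1) (q := z) hm (by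
    rw [mul_comm 2, pow_mul, hz1]; simp)
  have e : z ^ (1 + 6 * m * (m + 1)) = z ^ m := by
    rw [show 1 + 6 * m * (m + 1) = m + (2 * m + 1) * (3 * m + 1) by ring, pow_add, pow_mul, hz1,
      one_pow, mul_one]
  rw [e, one_pow, one_mul] at h
  have h2 : (2 : K) * z ^ m * WW m 1 z = 0 := by linear_combination h
  rcases mul_eq_zero.mp h2 with h3 | h3
  · exfalso
    rcases mul_eq_zero.mp h3 with h4 | h4
    · exact two_ne_zero h4
    · exact pow_ne_zero m hz0 h4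
  · exact h3

/-- The full cyclic sum of the generating polynomial. -/
noncomputable def FF (m : ℕ) (z : K) : K[X] :=
  ∑ j ∈ range (2 * m + 1), C z ^ j * MM m (C z) (X * C z ^ (4 * j))

lemma MM_degree (m : ℕ) (z : K) : (MM m (C z) X).natDegree ≤ 3 * m + 1 := by
  unfold MM
  refine natDegree_mul_le.trans ?_
  have h1 : (1 + C z * X : K[X]).natDegree ≤ 1 := by
    compute_degree
  have h2 : (∏ i ∈ Ico 1 (m + 1), (1 - X * C z ^ (4 * i)) ^ 3 : K[X]).natDegree ≤ 3 * m := by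
    refine (natDegree_prod_le _ _).trans ?_
    calc ∑ i ∈ Ico 1 (m + 1), ((1 - X * C z ^ (4 * i)) ^ 3 : K[X]).natDegree
        ≤ ∑ i ∈ Ico 1 (m + 1), 3 := by
          apply sum_le_sum
          intro i _
          rw [← C_pow]
          compute_degree
      _ = 3 * m := by
          rw [sum_const, Nat.card_Ico, smul_eq_mul]; ring_nf; omega
  omega

lemma MM_comp (m j : ℕ) (z : K) :
    MM m (C z) (X * C z ^ (4 * j)) = (MM m (C z) X).comp (C (z ^ (4 * j)) * X) := by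
  have h := map_MM (compRingHom (C (z ^ (4 * j)) * X : K[X])) m (C z) X
  simp only [coe_compRingHom_apply, C_comp, X_comp] at h
  rw [h]
  congr 1
  rw [C_pow, mul_comm]

lemma FF_coeff (m k : ℕ) (z : K) :
    (FF m z).coeff k = (MM m (C z) X).coeff k * ∑ j ∈ range (2 * m + 1), (z ^ (4 * k + 1)) ^ j := by
  unfold FF
  rw [finsetSum_coeff, mul_sum]
  apply sum_congr rfl
  intro j _
  rw [← C_pow, coeff_C_mul, MM_comp, comp_C_mul_X_coeff]
  have : (z ^ (4 * k + 1)) ^ j = z ^ j * (z ^ (4 * j)) ^ k := by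
    rw [← pow_mul, ← pow_mul, ← pow_add]; congr 1; ring
  rw [this]
  ring

lemma FF_coeff_eq_zero {m : ℕ} (hm : Odd m) {z : K} (hz : IsPrimitiveRoot z (2 * m + 1)) {k : ℕ}
    (hk : k ≠ (3 * m + 1) / 2) : (FF m z).coeff k = 0 := by
  rw [FF_coeff]
  rcases Nat.lt_or_ge (3 * m + 1) k with h | h
  · rw [coeff_eq_zero_of_natDegree_lt (lt_of_le_of_lt (MM_degree m z) h), zero_mul]
  · have hne : z ^ (4 * k + 1) ≠ 1 := by
      intro h1
      rw [hz.pow_eq_one_iff_dvd] at h1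
      obtain ⟨c, hc⟩ := h1
      obtain ⟨t, ht⟩ := hm
      subst ht
      apply hk
      have hc5 : c < 6 := by
        by_contra hcon
        push Not at hcon
        have : (2 * (2 * t + 1) + 1) * 6 ≤ (2 * (2 * t + 1) + 1) * c := Nat.mul_le_mul_left _ hcon
        omega
      interval_cases c <;> omega
    have hgeom : (∑ j ∈ range (2 * m + 1), (z ^ (4 * k + 1)) ^ j) * (z ^ (4 * k + 1) - 1) = 0 := by
      rw [geom_sum_mul, ← pow_mul, mul_comm (4 * k + 1), pow_mul, hz.pow_eq_one, one_pow, sub_self]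
    rcases mul_eq_zero.mp hgeom with h2 | h2
    · rw [h2, mul_zero]
    · exact absurd (sub_eq_zero.mp h2) hne

lemma FF_split {m : ℕ} {R : Type*} [CommRing R] {z : R} (hz : z ^ (2 * m + 1) = 1) (Y : R) :
    ∑ j ∈ range (2 * m + 1), z ^ j * MM m z (Y * z ^ (4 * j)) =
      WW m Y z + ∑ j ∈ Ico (m + 1) (2 * m + 1), z ^ j * MM m z (Y * z ^ (4 * j)) := by
  rw [← sum_range_add_sum_Ico _ (show m + 1 ≤ 2 * m + 1 by omega)]
  congr 1
  unfold WW
  apply sum_congr rfl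
  intro j hj
  rw [mem_range] at hj
  exact MM_small (by omega) hz Y

lemma large_dvd {m : ℕ} {R : Type*} [CommRing R] {z : R} (hz : z ^ (2 * m + 1) = 1) (Y : R) :
    (1 - Y) ^ 3 ∣ ∑ j ∈ Ico (m + 1) (2 * m + 1), z ^ j * MM m z (Y * z ^ (4 * j)) := by
  apply dvd_sum
  intro j hj
  rw [mem_Ico] at hj
  exact Dvd.dvd.mul_left (MM_large (by omega) (by omega) hz Y) _

theorem FF_eq_zero {m : ℕ} (hm : Odd m) {z : K} (hz : IsPrimitiveRoot z (2 * m + 1)) :
    FF m z = 0 := by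
  have h1 : FF m z = C ((FF m z).coeff ((3 * m + 1) / 2)) * X ^ ((3 * m + 1) / 2) := by
    ext k
    rw [coeff_C_mul_X_pow]
    split_ifs with h
    · rw [h]
    · exact FF_coeff_eq_zero hm hz h
  have h2 : (FF m z).eval 1 = 0 := by
    have hz1 : z ^ (2 * m + 1) = 1 := hz.pow_eq_one
    have e1 : (FF m z).eval 1 = ∑ j ∈ range (2 * m + 1), z ^ j * MM m z (1 * z ^ (4 * j)) := by
      unfold FF MM
      simp [eval_finsetSum, eval_prod]
    rw [e1, FF_split hz1, WW_one_zeta hm hz, zero_add]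
    have := large_dvd (m := m) hz1 1
    simpa using this
  have h3 : (FF m z).coeff ((3 * m + 1) / 2) = 0 := by
    have h4 := congrArg (eval 1) h1
    rw [h2] at h4
    simp at h4
    exact h4.symm
  rw [h1, h3, C_0, zero_mul]

theorem WW_poly_dvd {m : ℕ} (hm : Odd m) {z : K} (hz : IsPrimitiveRoot z (2 * m + 1)) :
    (1 - X : K[X]) ^ 3 ∣ WW m X (C z) := by
  have hz1 : (C z : K[X]) ^ (2 * m + 1) = 1 := by
    rw [← C_pow, hz.pow_eq_one, C_1]
  have h1 := FF_split (m := m) hz1 X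
  have h2 : ∑ j ∈ range (2 * m + 1), (C z : K[X]) ^ j * MM m (C z) (X * C z ^ (4 * j)) = 0 :=
    FF_eq_zero hm hz
  rw [h2] at h1
  have h3 := large_dvd (m := m) hz1 X
  have h4 : WW m X (C z) =
      -∑ j ∈ Ico (m + 1) (2 * m + 1), (C z : K[X]) ^ j * MM m (C z) (X * C z ^ (4 * j)) := by
    linear_combination -h1
  rw [h4]
  exact (dvd_neg).mpr h3

theorem WW_poly_deriv {m : ℕ} (hm : Odd m) {z : K} (hz : IsPrimitiveRoot z (2 * m + 1)) :
    (derivative (WW m X (C z) : K[X])).eval 1 = 0 := by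
  obtain ⟨g, hg⟩ := WW_poly_dvd hm hz
  rw [hg, derivative_mul, derivative_pow]
  simp

end field

section integer

/-- The block sum as a polynomial in `Y` over `ℤ[q]`. -/
noncomputable def PP (m : ℕ) : (ℤ[X])[X] := WW m X (C X)

lemma PP_eval (m : ℕ) (f : ℤ[X]) : (PP m).eval f = WW m f X := by
  unfold PP
  have := map_WW (evalRingHom f) m (X : (ℤ[X])[X]) (C X)
  simpa using this

variable {m : ℕ} {z : ℂ}

lemma dvd_of_aeval (hz : IsPrimitiveRoot z (2 * m + 1)) {f : ℤ[X]} (hf : aeval z f = 0) :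
    cyclotomic (2 * m + 1) ℤ ∣ f := by
  rw [cyclotomic_eq_minpoly hz (by omega)]
  exact minpoly.isIntegrallyClosed_dvd (hz.isIntegral (by omega)) hf

lemma aeval_of_dvd (hz : IsPrimitiveRoot z (2 * m + 1)) {f : ℤ[X]}
    (hf : cyclotomic (2 * m + 1) ℤ ∣ f) : aeval z f = 0 := by
  obtain ⟨g, rfl⟩ := hf
  rw [map_mul]
  have : aeval z (cyclotomic (2 * m + 1) ℤ) = 0 := by
    rw [cyclotomic_eq_minpoly hz (by omega)]
    exact minpoly.aeval _ _
  rw [this, zero_mul]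

lemma aeval_WW (f : ℤ[X]) (m : ℕ) : aeval z (WW m f X) = WW m (aeval z f) z := by
  have := map_WW (aeval z : ℤ[X] →ₐ[ℤ] ℂ).toRingHom m f X
  simpa using this

lemma aeval_a (hm : Odd m) (hz : IsPrimitiveRoot z (2 * m + 1)) :
    aeval z ((PP m).eval 1) = 0 := by
  rw [PP_eval, aeval_WW, map_one]
  exact WW_one_zeta hm hz

lemma aeval_b (hm : Odd m) (hz : IsPrimitiveRoot z (2 * m + 1)) :
    aeval z ((derivative (PP m)).eval 1) = 0 := by
  have h1 : (PP m).map (aeval z : ℤ[X] →ₐ[ℤ] ℂ).toRingHom = WW m X (C z) := by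
    unfold PP
    have := map_WW (mapRingHom (aeval z : ℤ[X] →ₐ[ℤ] ℂ).toRingHom) m (X : (ℤ[X])[X]) (C X)
    simpa using this
  have h2 := WW_poly_deriv hm hz
  rw [← h1, derivative_map, eval_map] at h2
  have h3 : eval₂ (aeval z : ℤ[X] →ₐ[ℤ] ℂ).toRingHom 1 (derivative (PP m)) =
      (aeval z : ℤ[X] →ₐ[ℤ] ℂ).toRingHom ((derivative (PP m)).eval 1) := by
    rw [← eval₂_at_apply, map_one]
  rw [h3] at h2
  exact h2

lemma prime_cyc : Prime (cyclotomic (2 * m + 1) ℤ) :=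
  (cyclotomic.irreducible (by omega)).prime

lemma cyc_dvd_pow (k : ℕ) : cyclotomic (2 * m + 1) ℤ ∣ X ^ ((2 * m + 1) * k) - 1 := by
  have h1 : cyclotomic (2 * m + 1) ℤ ∣ X ^ (2 * m + 1) - 1 := cyclotomic.dvd_X_pow_sub_one _ _
  have h2 : (X ^ (2 * m + 1) - 1 : ℤ[X]) ∣ (X ^ (2 * m + 1)) ^ k - 1 ^ k := sub_dvd_pow_sub_pow _ _ _
  rw [one_pow, ← pow_mul] at h2
  exact h1.trans h2

/-- Expansion near `Y = 1`. -/
lemma WW_expand (hm : Odd m) (hz : IsPrimitiveRoot z (2 * m + 1)) {f : ℤ[X]}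
    (hf : cyclotomic (2 * m + 1) ℤ ∣ f - 1) :
    cyclotomic (2 * m + 1) ℤ ^ 2 ∣ WW m f X - WW m 1 X := by
  have hb : cyclotomic (2 * m + 1) ℤ ∣ (derivative (PP m)).eval 1 :=
    dvd_of_aeval hz (aeval_b hm hz)
  have h := (Polynomial.binomExpansion (PP m) 1 (f - 1))
  obtain ⟨k, hk⟩ := h
  rw [add_sub_cancel, PP_eval, PP_eval] at hk
  rw [hk]
  have : WW m 1 X + eval 1 (derivative (PP m)) * (f - 1) + k * (f - 1) ^ 2 - WW m 1 X =
      eval 1 (derivative (PP m)) * (f - 1) + k * (f - 1) ^ 2 := by ring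
  rw [this, sq (cyclotomic (2 * m + 1) ℤ)]
  apply dvd_add
  · exact mul_dvd_mul hb hf
  · rw [sq]
    exact (mul_dvd_mul hf hf).mul_left _

theorem sq_dvd_WW_one (hm : Odd m) (hz : IsPrimitiveRoot z (2 * m + 1)) :
    cyclotomic (2 * m + 1) ℤ ^ 2 ∣ WW m 1 (X : ℤ[X]) := by
  set Φ := cyclotomic (2 * m + 1) ℤ with hΦ
  have hz1 : z ^ (2 * m + 1) = 1 := hz.pow_eq_one
  have hz0 : z ≠ 0 := hz.ne_zero (by omega)
  have hu : Φ ∣ (X : ℤ[X]) ^ (2 * (2 * m + 1)) - 1 := by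
    have := cyc_dvd_pow (m := m) 2
    rwa [mul_comm (2 * m + 1) 2] at this
  set y' : ℤ[X] := 2 - X ^ (2 * (2 * m + 1)) with hy'
  -- reflection in the quotient ring
  let I : Ideal ℤ[X] := Ideal.span {Φ ^ 2}
  have hrel : Ideal.Quotient.mk I 1 * Ideal.Quotient.mk I y' *
      (Ideal.Quotient.mk I X) ^ (2 * (2 * m + 1)) = 1 := by
    rw [← map_pow, ← map_mul, ← map_mul, ← sub_eq_zero, ← map_one (Ideal.Quotient.mk I), ← map_sub,
      Ideal.Quotient.eq_zero_iff_mem, Ideal.mem_span_singleton]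
    have : 1 * y' * X ^ (2 * (2 * m + 1)) - 1 = -((X : ℤ[X]) ^ (2 * (2 * m + 1)) - 1) ^ 2 := by
      rw [hy']; ring
    rw [this]
    exact (dvd_neg).mpr (pow_dvd_pow_of_dvd hu 2)
  have hrefl := WW_reflect hm hrel
  rw [← map_WW, ← map_WW, ← map_pow, ← map_pow, ← map_pow, ← map_mul, ← map_mul, ← map_mul,
    ← map_neg, Ideal.Quotient.eq, Ideal.mem_span_singleton] at hrefl
  have hexp := WW_expand hm hz (f := y') (by
    have : y' - 1 = -((X : ℤ[X]) ^ (2 * (2 * m + 1)) - 1) := by rw [hy']; ring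
    rw [this]
    exact (dvd_neg).mpr hu)
  rw [← hΦ] at hexp
  have h1 : Φ ^ 2 ∣ WW m 1 (X : ℤ[X]) * (y' ^ (3 * m + 1) * X ^ (1 + 6 * m * (m + 1)) + X ^ m) := by
    have e : WW m 1 (X : ℤ[X]) * (y' ^ (3 * m + 1) * X ^ (1 + 6 * m * (m + 1)) + X ^ m) =
        (WW m 1 X * (y' ^ (3 * m + 1) * X ^ (1 + 6 * m * (m + 1))) - -(X ^ m * WW m y' X)) -
          X ^ m * (WW m y' X - WW m 1 X) := by ring
    rw [e]
    exact dvd_sub hrefl (hexp.mul_left _)
  obtain ⟨a', ha'⟩ : Φ ∣ WW m 1 (X : ℤ[X]) := by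
    have := dvd_of_aeval hz (aeval_a hm hz)
    rwa [PP_eval] at this
  have hP : Prime Φ := prime_cyc
  rw [ha', mul_assoc, sq] at h1
  have h2 := (mul_dvd_mul_iff_left hP.ne_zero).mp h1
  rcases hP.dvd_or_dvd h2 with h3 | h3
  · rw [ha', sq]
    exact mul_dvd_mul_left _ h3
  · exfalso
    have h4 := aeval_of_dvd hz h3
    have hy1 : aeval z y' = 1 := by
      rw [hy', map_sub, map_pow, aeval_X, mul_comm 2, pow_mul, hz1, one_pow]
      have : (aeval z (2 : ℤ[X]) : ℂ) = 2 := by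
        have := map_ofNat (aeval z : ℤ[X] →ₐ[ℤ] ℂ) 2
        simpa using this
      rw [this]
      norm_num
    have e : z ^ (1 + 6 * m * (m + 1)) = z ^ m := by
      rw [show 1 + 6 * m * (m + 1) = m + (2 * m + 1) * (3 * m + 1) by ring, pow_add, pow_mul, hz1,
        one_pow, mul_one]
    rw [map_add, map_mul, map_pow, map_pow, map_pow, aeval_X, hy1, e, one_pow, one_mul] at h4
    have h5 : (2 : ℂ) * z ^ m = 0 := by linear_combination h4
    rcases mul_eq_zero.mp h5 with h6 | h6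
    · exact two_ne_zero h6
    · exact pow_ne_zero m hz0 h6

/-- The key divisibility. -/
theorem sq_dvd_WW (hm : Odd m) (hz : IsPrimitiveRoot z (2 * m + 1)) (l : ℕ) :
    cyclotomic (2 * m + 1) ℤ ^ 2 ∣ WW m (X ^ ((2 * m + 1) * (4 * l))) (X : ℤ[X]) := by
  have h1 := sq_dvd_WW_one hm hz
  have h2 := WW_expand hm hz (f := X ^ ((2 * m + 1) * (4 * l))) (cyc_dvd_pow _)
  have := dvd_add h1 h2
  rwa [add_sub_cancel] at this

end integer

end Pool.Agent.QSum
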