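import Mathlib
import Pool.Agent.MP_846daf_nt.Root
import Pool.Agent.MP_846daf_nt.Defs

set_option autoImplicit false

open Finset Polynomial

namespace Pool.Agent.QSum

/-! ### Auxiliary facts -/

lemma emb_injective : Function.Injective emb := by
  unfold emb
  rw [RingHom.coe_comp]
  refine (RatFunc.algebraMap_injective ℚ).comp ?_
  exact map_injective _ Int.cast_injective

@[simp] lemma emb_X : emb X = q := by
  simp [emb, q]

lemma emb_ne {P : ℤ[X]} (h : P ≠ 0) : emb P ≠ 0 := by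
  intro h0
  exact h (emb_injective (by rw [h0, map_zero]))

section val

variable {m : ℕ} {z : ℂ}

/-- regular at `z` -/
def Reg (z : ℂ) (f : RatFunc ℚ) : Prop := ∃ P Q : ℤ[X], aeval z Q ≠ 0 ∧ f * emb Q = emb P

/-- regular at `z` and divisible by `Φ^2` -/
def Van (m : ℕ) (z : ℂ) (f : RatFunc ℚ) : Prop :=
  ∃ P Q : ℤ[X], aeval z Q ≠ 0 ∧ cyclotomic (2 * m + 1) ℤ ^ 2 ∣ P ∧ f * emb Q = emb P

lemma ne_of_aeval {Q : ℤ[X]} (h : aeval z Q ≠ 0) : Q ≠ 0 := by
  rintro rfl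
  exact h (map_zero _)

lemma Reg.mul {f g : RatFunc ℚ} (hf : Reg z f) (hg : Reg z g) : Reg z (f * g) := by
  obtain ⟨P, Q, h1, h2⟩ := hf
  obtain ⟨P', Q', h1', h2'⟩ := hg
  refine ⟨P * P', Q * Q', by rw [map_mul]; exact mul_ne_zero h1 h1', ?_⟩
  rw [map_mul, map_mul, ← h2, ← h2']
  ring

lemma Reg.emb (P : ℤ[X]) : Reg z (emb P) := ⟨P, 1, by simp, by simp⟩

lemma Reg.inv {Q : ℤ[X]} (h : aeval z Q ≠ 0) : Reg z (QSum.emb Q)⁻¹ :=
  ⟨1, Q, h, by rw [inv_mul_cancel₀ (emb_ne (ne_of_aeval h)), map_one]⟩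

lemma Reg.div {P Q : ℤ[X]} (h : aeval z Q ≠ 0) : Reg z (QSum.emb P / QSum.emb Q) := by
  rw [div_eq_mul_inv]
  exact (Reg.emb P).mul (Reg.inv h)

lemma Reg.pow {f : RatFunc ℚ} (hf : Reg z f) (k : ℕ) : Reg z (f ^ k) := by
  induction k with
  | zero => rw [pow_zero, ← map_one QSum.emb]; exact Reg.emb 1
  | succ k ih => rw [pow_succ]; exact ih.mul hf

lemma Van.add {f g : RatFunc ℚ} (hf : Van m z f) (hg : Van m z g) : Van m z (f + g) := by
  obtain ⟨P, Q, h1, h2, h3⟩ := hf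
  obtain ⟨P', Q', h1', h2', h3'⟩ := hg
  refine ⟨P * Q' + P' * Q, Q * Q', by rw [map_mul]; exact mul_ne_zero h1 h1',
    dvd_add (h2.mul_right _) (h2'.mul_right _), ?_⟩
  rw [map_mul, map_add, map_mul, map_mul, ← h3, ← h3']
  ring

lemma Van.zero : Van m z 0 := ⟨0, 1, by simp, dvd_zero _, by simp⟩

lemma Van.sum {ι : Type*} (s : Finset ι) (f : ι → RatFunc ℚ) (h : ∀ i ∈ s, Van m z (f i)) :
    Van m z (∑ i ∈ s, f i) := by
  classical
  induction s using Finset.induction_on with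
  | empty => simpa using Van.zero
  | insert a s ha ih =>
    rw [sum_insert ha]
    exact (h a (mem_insert_self _ _)).add (ih (fun i hi => h i (mem_insert_of_mem hi)))

lemma Reg.mul_van {f g : RatFunc ℚ} (hf : Reg z f) (hg : Van m z g) : Van m z (f * g) := by
  obtain ⟨P, Q, h1, h2⟩ := hf
  obtain ⟨P', Q', h1', h2', h3'⟩ := hg
  refine ⟨P * P', Q * Q', by rw [map_mul]; exact mul_ne_zero h1 h1', h2'.mul_left _, ?_⟩
  rw [map_mul, map_mul, ← h2, ← h3']
  ring

lemma Van.emb {P : ℤ[X]} (h : cyclotomic (2 * m + 1) ℤ ^ 2 ∣ P) : Van m z (emb P) :=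
  ⟨P, 1, by simp, h, by simp⟩

lemma Van.cong (hz : IsPrimitiveRoot z (2 * m + 1)) {f : RatFunc ℚ} (hf : Van m z f) :
    CongZero (2 * m + 1) f := by
  obtain ⟨P, Q, h1, h2, h3⟩ := hf
  have hQ : Q ≠ 0 := ne_of_aeval h1
  obtain ⟨Q', P', c, hrel, hcQ, hcP⟩ := UniqueFactorizationMonoid.exists_reduced_factors Q hQ P
  have hc : c ≠ 0 := by
    rintro rfl; rw [zero_mul] at hcQ; exact hQ hcQ.symm
  have hQ' : Q' ≠ 0 := by
    rintro rfl; rw [mul_zero] at hcQ; exact hQ hcQ.symm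
  rw [← hcQ, map_mul] at h1
  have h1c : aeval z c ≠ 0 := left_ne_zero_of_mul h1
  have h1Q : aeval z Q' ≠ 0 := right_ne_zero_of_mul h1
  have hP : Prime (cyclotomic (2 * m + 1) ℤ) := prime_cyc
  refine ⟨P', Q', hQ', hrel.symm, ?_, ?_, ?_⟩
  · rw [eq_div_iff (emb_ne hQ')]
    have : QSum.emb c * (f * QSum.emb Q') = QSum.emb c * QSum.emb P' := by
      rw [← map_mul, hcP, ← h3, ← hcQ, map_mul]; ring
    exact mul_left_cancel₀ (emb_ne hc) this
  · refine IsRelPrime.symm ?_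
    rw [hP.irreducible.isRelPrime_iff_not_dvd]
    intro hd
    exact h1Q (aeval_of_dvd hz hd)
  · rw [← hcP] at h2
    exact hP.pow_dvd_of_dvd_mul_left 2 (fun hd => h1c (aeval_of_dvd hz hd)) h2

end val

/-! ### The blocks -/

section blocks

variable {m : ℕ} {z : ℂ}

/-- numerator of a block ratio -/
noncomputable def numP (m l j : ℕ) : ℤ[X] :=
  ∏ i ∈ range j, (1 - X ^ ((2 * m + 1) * (4 * l)) * X ^ (4 * i + 2))

/-- denominator of a block ratio -/
noncomputable def denP (m l j : ℕ) : ℤ[X] :=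
  ∏ i ∈ range j, (1 - X ^ ((2 * m + 1) * (4 * l)) * X ^ (4 * (i + 1)))

/-- the ratio of the two shifted factorials -/
noncomputable def beta (k : ℕ) : RatFunc ℚ := qPoch (q ^ 2) (q ^ 4) k / qPoch (q ^ 4) (q ^ 4) k

lemma t_eq (k : ℕ) : t k = q ^ k * (1 + q ^ (4 * k + 1)) / (1 + q) * beta k ^ 3 := by
  unfold t beta
  rw [div_pow, div_mul_div_comm, ← mul_div_assoc, ← mul_assoc]

lemma qPoch_num (m l j : ℕ) : qPoch (q ^ 2) (q ^ 4) ((2 * m + 1) * l + j) =
    qPoch (q ^ 2) (q ^ 4) ((2 * m + 1) * l) * emb (numP m l j) := by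
  unfold qPoch numP
  rw [prod_range_add, map_prod]
  congr 1
  apply prod_congr rfl
  intro i _
  rw [map_sub, map_mul, map_pow, map_pow, emb_X, map_one, ← pow_mul, ← pow_add, ← pow_add]
  congr 2
  ring

lemma qPoch_den (m l j : ℕ) : qPoch (q ^ 4) (q ^ 4) ((2 * m + 1) * l + j) =
    qPoch (q ^ 4) (q ^ 4) ((2 * m + 1) * l) * emb (denP m l j) := by
  unfold qPoch denP
  rw [prod_range_add, map_prod]
  congr 1
  apply prod_congr rfl
  intro i _
  rw [map_sub, map_mul, map_pow, map_pow, emb_X, map_one, ← pow_mul, ← pow_add, ← pow_add]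
  congr 2
  ring

lemma beta_add (m l j : ℕ) : beta ((2 * m + 1) * l + j) =
    beta ((2 * m + 1) * l) * (emb (numP m l j) / emb (denP m l j)) := by
  unfold beta
  rw [qPoch_num, qPoch_den, mul_div_mul_comm]

lemma factor_ne (hz : IsPrimitiveRoot z (2 * m + 1)) (l : ℕ) {i : ℕ} (hi : i < 2 * m) :
    aeval z (1 - X ^ ((2 * m + 1) * (4 * l)) * X ^ (4 * (i + 1)) : ℤ[X]) ≠ 0 := by
  rw [map_sub, map_mul, map_pow, map_pow, aeval_X, map_one, pow_mul z (2 * m + 1), hz.pow_eq_one,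
    one_pow, one_mul]
  intro h
  have h1 : z ^ (4 * (i + 1)) = 1 := (sub_eq_zero.mp h).symm
  rw [hz.pow_eq_one_iff_dvd] at h1
  have hcop : Nat.Coprime (2 * m + 1) 4 := by
    have : Nat.Coprime (2 * m + 1) (2 ^ 2) := by
      apply Nat.Coprime.pow_right
      rw [Nat.coprime_two_right]
      exact ⟨m, rfl⟩
    simpa using this
  have h2 := hcop.dvd_of_dvd_mul_left h1
  have := Nat.le_of_dvd (by omega) h2
  omega

lemma denP_ne (hz : IsPrimitiveRoot z (2 * m + 1)) (l : ℕ) {j : ℕ} (hj : j ≤ 2 * m) :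
    aeval z (denP m l j) ≠ 0 := by
  unfold denP
  rw [map_prod, prod_ne_zero_iff]
  intro i hi
  rw [mem_range] at hi
  exact factor_ne hz l (by omega)

lemma cyc_dvd_num (l : ℕ) :
    cyclotomic (2 * m + 1) ℤ ∣ 1 - X ^ ((2 * m + 1) * (4 * l)) * X ^ (4 * m + 2) := by
  have h := cyc_dvd_pow (m := m) (4 * l + 2)
  have e : (1 : ℤ[X]) - X ^ ((2 * m + 1) * (4 * l)) * X ^ (4 * m + 2) =
      -(X ^ ((2 * m + 1) * (4 * l + 2)) - 1) := by
    rw [← pow_add, neg_sub]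
    congr 2
    ring
  rw [e]
  exact (dvd_neg).mpr h

lemma cyc_dvd_numP (l : ℕ) {j : ℕ} (hj : m < j) : cyclotomic (2 * m + 1) ℤ ∣ numP m l j := by
  refine (cyc_dvd_num l).trans ?_
  exact dvd_prod_of_mem (fun i => (1 - X ^ ((2 * m + 1) * (4 * l)) * X ^ (4 * i + 2) : ℤ[X]))
    (mem_range.mpr hj)

/-- geometric sums -/
noncomputable def GG (m k : ℕ) : ℤ[X] := ∑ i ∈ range k, (X ^ (2 * (2 * m + 1))) ^ i

lemma GG_mul (m k : ℕ) : (1 - X ^ (2 * (2 * m + 1))) * GG m k = 1 - X ^ (2 * (2 * m + 1) * k) := by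
  have := mul_neg_geom_sum (X ^ (2 * (2 * m + 1)) : ℤ[X]) k
  unfold GG
  rw [this, ← pow_mul]

lemma aeval_GG (hz : IsPrimitiveRoot z (2 * m + 1)) (k : ℕ) : aeval z (GG m k) = k := by
  unfold GG
  rw [map_sum]
  simp only [map_pow, aeval_X]
  have : z ^ (2 * (2 * m + 1)) = 1 := by rw [mul_comm, pow_mul, hz.pow_eq_one, one_pow]
  simp [this]

lemma one_sub_X_pow_ne (m : ℕ) : (1 - X ^ (2 * (2 * m + 1)) : ℤ[X]) ≠ 0 := by
  intro h
  have := congrArg (eval 0) h
  simp at this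

lemma Reg_beta (hz : IsPrimitiveRoot z (2 * m + 1)) (l : ℕ) : Reg z (beta ((2 * m + 1) * l)) := by
  induction l with
  | zero =>
    have : beta ((2 * m + 1) * 0) = emb 1 := by simp [beta, qPoch]
    rw [this]
    exact Reg.emb 1
  | succ l ih =>
    have e1 : (2 * m + 1) * (l + 1) = (2 * m + 1) * l + (2 * m + 1) := by ring
    rw [e1, beta_add]
    refine ih.mul ?_
    set A : ℤ[X] := ∏ i ∈ (range (2 * m + 1)).erase m,
      (1 - X ^ ((2 * m + 1) * (4 * l)) * X ^ (4 * i + 2)) with hA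
    have hn : numP m l (2 * m + 1) = (1 - X ^ (2 * (2 * m + 1))) * (GG m (2 * l + 1) * A) := by
      have e2 : (1 - X ^ ((2 * m + 1) * (4 * l)) * X ^ (4 * m + 2) : ℤ[X]) =
          (1 - X ^ (2 * (2 * m + 1))) * GG m (2 * l + 1) := by
        rw [GG_mul, ← pow_add]
        congr 2
        ring
      unfold numP
      rw [← mul_prod_erase _ _ (mem_range.mpr (show m < 2 * m + 1 by omega)), e2, ← hA, mul_assoc]
    have hd : denP m l (2 * m + 1) =
        (1 - X ^ (2 * (2 * m + 1))) * (GG m (2 * l + 2) * denP m l (2 * m)) := by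
      have e2 : (1 - X ^ ((2 * m + 1) * (4 * l)) * X ^ (4 * (2 * m + 1)) : ℤ[X]) =
          (1 - X ^ (2 * (2 * m + 1))) * GG m (2 * l + 2) := by
        rw [GG_mul, ← pow_add]
        congr 2
        ring
      unfold denP
      rw [prod_range_succ, e2]
      ring
    have h1 : emb (numP m l (2 * m + 1)) / emb (denP m l (2 * m + 1)) =
        emb (GG m (2 * l + 1) * A) / emb (GG m (2 * l + 2) * denP m l (2 * m)) := by
      rw [hn, hd, map_mul, map_mul emb (1 - X ^ (2 * (2 * m + 1))),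
        mul_div_mul_left _ _ (emb_ne (one_sub_X_pow_ne m))]
    rw [h1]
    apply Reg.div
    rw [map_mul, aeval_GG hz]
    refine mul_ne_zero ?_ (denP_ne hz l le_rfl)
    exact_mod_cast (show 2 * l + 2 ≠ 0 by omega)

lemma one_add_ne (hz : IsPrimitiveRoot z (2 * m + 1)) : aeval z (1 + X : ℤ[X]) ≠ 0 := by
  rw [map_add, map_one, aeval_X]
  intro h
  have h1 : z = -1 := by linear_combination h
  have h2 := hz.pow_eq_one
  rw [h1, Odd.neg_one_pow ⟨m, rfl⟩] at h2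
  norm_num at h2

lemma Reg_pref (hz : IsPrimitiveRoot z (2 * m + 1)) (l : ℕ) (P Q : ℤ[X]) (hQ : aeval z Q ≠ 0) :
    Reg z (emb P / emb (1 + X) * beta ((2 * m + 1) * l) ^ 3 / emb Q) := by
  rw [div_eq_mul_inv _ (emb Q)]
  exact ((Reg.div (one_add_ne hz)).mul ((Reg_beta hz l).pow 3)).mul (Reg.inv hQ)

/-- The second half of a block. -/
lemma Van_large (hz : IsPrimitiveRoot z (2 * m + 1)) (l : ℕ) {j : ℕ} (h1 : m < j)
    (h2 : j < 2 * m + 1) : Van m z (t ((2 * m + 1) * l + j)) := by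
  have e : t ((2 * m + 1) * l + j) =
      emb (X ^ ((2 * m + 1) * l + j) * (1 + X ^ (4 * ((2 * m + 1) * l + j) + 1))) / emb (1 + X) *
        beta ((2 * m + 1) * l) ^ 3 / emb (denP m l j ^ 3) * emb (numP m l j ^ 3) := by
    rw [t_eq, beta_add]
    simp only [map_mul, map_add, map_pow, map_one, emb_X]
    rw [mul_pow, div_pow]
    ring
  rw [e]
  refine (Reg_pref hz l _ _ ?_).mul_van (Van.emb ?_)
  · rw [map_pow]
    exact pow_ne_zero 3 (denP_ne hz l (by omega))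
  · have h3 := pow_dvd_pow_of_dvd (cyc_dvd_numP l h1) 3
    exact (pow_dvd_pow _ (by norm_num)).trans h3

lemma denP_split (l : ℕ) {j : ℕ} (hj : j ≤ m) : denP m l m =
    denP m l j * ∏ i ∈ Ico (j + 1) (m + 1), (1 - X ^ ((2 * m + 1) * (4 * l)) * X ^ (4 * i)) := by
  unfold denP
  rw [← prod_range_mul_prod_Ico _ hj]
  congr 1
  rw [prod_Ico_add' (fun i => (1 - X ^ ((2 * m + 1) * (4 * l)) * X ^ (4 * i) : ℤ[X])) j m 1]

/-- The first half of a block. -/
lemma t_small (hz : IsPrimitiveRoot z (2 * m + 1)) (l : ℕ) {j : ℕ} (hj : j ≤ m) :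
    t ((2 * m + 1) * l + j) =
      emb (X ^ ((2 * m + 1) * l)) / emb (1 + X) * beta ((2 * m + 1) * l) ^ 3 /
        emb (denP m l m ^ 3) * emb (ww m (X ^ ((2 * m + 1) * (4 * l))) X j) := by
  have hd : emb (denP m l j) ≠ 0 := emb_ne (ne_of_aeval (denP_ne hz l (by omega)))
  have hdm : emb (denP m l m) ≠ 0 := emb_ne (ne_of_aeval (denP_ne hz l (by omega)))
  rw [denP_split l hj, map_mul] at hdm
  have hr := right_ne_zero_of_mul hdm
  rw [t_eq, beta_add, denP_split l hj]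
  have hw : ww m (X ^ ((2 * m + 1) * (4 * l))) (X : ℤ[X]) j =
      X ^ j * (1 + X ^ ((2 * m + 1) * (4 * l)) * X ^ (4 * j + 1)) * (numP m l j) ^ 3 *
        (∏ i ∈ Ico (j + 1) (m + 1), (1 - X ^ ((2 * m + 1) * (4 * l)) * X ^ (4 * i))) ^ 3 := by
    unfold ww numP
    rw [prod_pow, prod_pow]
  rw [hw]
  set R : ℤ[X] := ∏ i ∈ Ico (j + 1) (m + 1), (1 - X ^ ((2 * m + 1) * (4 * l)) * X ^ (4 * i)) with hR
  have e2 : q ^ ((2 * m + 1) * l + j) * (1 + q ^ (4 * ((2 * m + 1) * l + j) + 1)) =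
      q ^ ((2 * m + 1) * l) * (q ^ j * (1 + q ^ ((2 * m + 1) * (4 * l)) * q ^ (4 * j + 1))) := by
    rw [← pow_add q ((2 * m + 1) * (4 * l)), pow_add q ((2 * m + 1) * l) j]
    rw [show (2 * m + 1) * (4 * l) + (4 * j + 1) = 4 * ((2 * m + 1) * l + j) + 1 by ring]
    ring
  rw [e2]
  simp only [map_mul, map_add, map_pow, map_one, emb_X]
  have hr3 : emb R ^ 3 / emb R ^ 3 = 1 := div_self (pow_ne_zero 3 hr)
  calc q ^ ((2 * m + 1) * l) * (q ^ j * (1 + q ^ ((2 * m + 1) * (4 * l)) * q ^ (4 * j + 1))) /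
        (1 + q) * (beta ((2 * m + 1) * l) * (emb (numP m l j) / emb (denP m l j))) ^ 3
      = q ^ ((2 * m + 1) * l) * (q ^ j * (1 + q ^ ((2 * m + 1) * (4 * l)) * q ^ (4 * j + 1))) /
        (1 + q) * (beta ((2 * m + 1) * l) * (emb (numP m l j) / emb (denP m l j))) ^ 3 *
          (emb R ^ 3 / emb R ^ 3) := by rw [hr3, mul_one]
    _ = _ := by
      rw [mul_pow (emb (denP m l j)) (emb R) 3]
      field_simp

lemma Van_small (hm : Odd m) (hz : IsPrimitiveRoot z (2 * m + 1)) (l : ℕ) :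
    Van m z (∑ j ∈ range (m + 1), t ((2 * m + 1) * l + j)) := by
  have e : ∑ j ∈ range (m + 1), t ((2 * m + 1) * l + j) =
      emb (X ^ ((2 * m + 1) * l)) / emb (1 + X) * beta ((2 * m + 1) * l) ^ 3 /
        emb (denP m l m ^ 3) * emb (WW m (X ^ ((2 * m + 1) * (4 * l))) X) := by
    unfold WW
    rw [map_sum, mul_sum]
    apply sum_congr rfl
    intro j hj
    rw [mem_range] at hj
    exact t_small hz l (by omega)
  rw [e]
  refine (Reg_pref hz l _ _ ?_).mul_van (Van.emb (sq_dvd_WW hm hz l))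
  rw [map_pow]
  exact pow_ne_zero 3 (denP_ne hz l (by omega))

lemma Van_block (hm : Odd m) (hz : IsPrimitiveRoot z (2 * m + 1)) (l : ℕ) :
    Van m z (∑ j ∈ range (2 * m + 1), t ((2 * m + 1) * l + j)) := by
  rw [← sum_range_add_sum_Ico _ (show m + 1 ≤ 2 * m + 1 by omega)]
  refine (Van_small hm hz l).add (Van.sum _ _ ?_)
  intro j hj
  rw [mem_Ico] at hj
  exact Van_large hz l (by omega) (by omega)

lemma Van_full (hm : Odd m) (hz : IsPrimitiveRoot z (2 * m + 1)) (r : ℕ) :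
    Van m z (∑ k ∈ range ((2 * m + 1) * r), t k) := by
  induction r with
  | zero => simpa using Van.zero
  | succ r ih =>
    rw [show (2 * m + 1) * (r + 1) = (2 * m + 1) * r + (2 * m + 1) by ring, sum_range_add]
    exact ih.add (Van_block hm hz r)

end blocks

/-- For all `n ≡ 3 (mod 4)` and `r ≥ 1`, both truncated sums vanish modulo `Φ_n(q)^2`. -/
theorem main_theorem : ∀ n r : ℕ, n % 4 = 3 → 1 ≤ r →
    CongZero n (S (r * n - 1)) ∧ CongZero n (S (r * n + (n - 1) / 2)) := by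
  intro n r hn hr
  obtain ⟨m, rfl⟩ : ∃ m, n = 2 * m + 1 := ⟨n / 2, by omega⟩
  have hm : Odd m := by
    rw [Nat.odd_iff]; omega
  have hz : IsPrimitiveRoot (Complex.exp (2 * Real.pi * Complex.I / ((2 * m + 1 : ℕ) : ℂ)))
      (2 * m + 1) := Complex.isPrimitiveRoot_exp _ (by omega)
  have h1 := Van_full hm hz r
  have h2 := Van_small hm hz r
  constructor
  · apply Van.cong hz
    unfold S
    have : r * (2 * m + 1) - 1 + 1 = (2 * m + 1) * r := by
      have : 1 ≤ r * (2 * m + 1) := Nat.one_le_iff_ne_zero.mpr (by positivity)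
      rw [Nat.sub_add_cancel this, mul_comm]
    rw [this]
    exact h1
  · apply Van.cong hz
    unfold S
    have : r * (2 * m + 1) + (2 * m + 1 - 1) / 2 + 1 = (2 * m + 1) * r + (m + 1) := by
      have : (2 * m + 1 - 1) / 2 = m := by omega
      rw [this]; ring
    rw [this, sum_range_add]
    exact h1.add h2

end Pool.Agent.QSum
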